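import Pool.Agent.E8helper21.QT.Sel1
import Pool.Agent.TH841.SH.Tr

/-!
# Project F1, piece ALG1 (helper50): the Selmer groups of `y² = x³ + D x`, `D ≡ 11` modulo `16`
-/

set_option autoImplicit false
set_option linter.unusedSectionVars false
set_option linter.unusedVariables false

namespace Pool.Agent.E8helper50.F1

open Pool.Agent.Y700 (PC)
open Pool.Agent.E8helper21.QT

variable {Q : Finset ℕ}

/-- the square conditions imply that the set is empty or everything -/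
def KS (Q : Finset ℕ) : Prop := ∀ T ⊆ Q,
  (∀ p ∈ Q \ T, IsSquare ((∏ l ∈ T, l : ℕ) : ZMod p)) →
  (∀ p ∈ T, IsSquare ((∏ l ∈ Q \ T, l : ℕ) : ZMod p)) → T = ∅ ∨ T = Q

/-- the conditions at the prime factors of `D` -/
theorem T_cond (hprime : ∀ p ∈ Q, p.Prime) {T : Finset ℕ} (hT : T ⊆ Q) {δ c : ℤ}
    (hδ : ∀ q ∈ Q, ¬ (q : ℤ) ∣ δ) (hc : ∀ q ∈ Q, ¬ (q : ℤ) ∣ c)
    (hz : Squarefree (δ * ((∏ p ∈ T, p : ℕ) : ℤ)))
    (h : ∀ (p : ℕ) [Fact p.Prime], PC 0 (c * (nD Q : ℤ)) p (δ * ((∏ p ∈ T, p : ℕ) : ℤ))) :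
    (∀ q ∈ Q \ T, IsSquare ((δ * ((∏ p ∈ T, p : ℕ) : ℤ) : ℤ) : ZMod q)) ∧
    (∀ q ∈ T, IsSquare ((δ * c * ((∏ p ∈ Q \ T, p : ℕ) : ℤ) : ℤ) : ZMod q)) := by
  classical
  have hprod : ∀ q ∈ Q, nD Q = q * ∏ p ∈ Q.erase q, p := by
    intro q hq
    unfold nD
    exact (Finset.mul_prod_erase Q (fun p => p) hq).symm
  have hndvd : ∀ q ∈ Q, ¬ (q : ℤ) ∣ c * ((∏ p ∈ Q.erase q, p : ℕ) : ℤ) := by
    intro q hq h1
    rcases (Nat.prime_iff_prime_int.1 (hprime q hq)).dvd_or_dvd h1 with h2 | h2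
    · exact hc q hq h2
    · have h3 : q ∣ ∏ p ∈ Q.erase q, p := by exact_mod_cast h2
      have := prod_ne (hprime q hq) (J := Q.erase q)
        (fun x hx => hprime x (Finset.mem_of_mem_erase hx)) (Finset.notMem_erase q Q)
      rw [Ne, ZMod.natCast_eq_zero_iff] at this
      exact this h3
  refine ⟨fun q hq => ?_, fun q hq => ?_⟩
  · obtain ⟨hqP, hqT⟩ := Finset.mem_sdiff.1 hq
    haveI := Fact.mk (hprime q hqP)
    have h1 := h q
    have hT0 : ((∏ p ∈ T, p : ℕ) : ZMod q) ≠ 0 :=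
      prod_ne (hprime q hqP) (fun x hx => hprime x (hT hx)) hqT
    have e1 : c * (nD Q : ℤ) = (q : ℤ) * (c * ((∏ p ∈ Q.erase q, p : ℕ) : ℤ)) := by
      rw [hprod q hqP]
      push_cast
      ring
    rw [e1] at h1
    exact sq_out hz h1 (hndvd q hqP) (by
      intro h3
      rcases (Nat.prime_iff_prime_int.1 (hprime q hqP)).dvd_or_dvd h3 with h4 | h4
      · exact hδ q hqP h4
      · apply hT0
        rw [ZMod.natCast_eq_zero_iff]
        exact_mod_cast h4)
  · have hqP := hT hq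
    haveI := Fact.mk (hprime q hqP)
    have h1 := h q
    have e1 : c * (nD Q : ℤ) = (q : ℤ) * (c * ((∏ p ∈ Q.erase q, p : ℕ) : ℤ)) := by
      rw [hprod q hqP]
      push_cast
      ring
    have e2 : δ * ((∏ p ∈ T, p : ℕ) : ℤ) = (q : ℤ) * (δ * ((∏ p ∈ T.erase q, p : ℕ) : ℤ)) := by
      rw [← Finset.mul_prod_erase T (fun p => p) hq]
      push_cast
      ring
    rw [e2] at h1 hz
    rw [e1] at h1
    have h2 := sq_in hz h1 (hndvd q hqP)
    have e3 : Q.erase q = T.erase q ∪ (Q \ T) := by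
      ext x
      simp only [Finset.mem_erase, Finset.mem_union, Finset.mem_sdiff]
      constructor
      · rintro ⟨h3, h4⟩
        by_cases h5 : x ∈ T
        · exact Or.inl ⟨h3, h5⟩
        · exact Or.inr ⟨h4, h5⟩
      · rintro (⟨h3, h4⟩ | ⟨h3, h4⟩)
        · exact ⟨h3, hT h4⟩
        · refine ⟨?_, h3⟩
          rintro rfl
          exact h4 hq
    have e4 : ((∏ p ∈ Q.erase q, p : ℕ) : ℤ) =
        ((∏ p ∈ T.erase q, p : ℕ) : ℤ) * ((∏ p ∈ Q \ T, p : ℕ) : ℤ) := by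
      rw [e3, Finset.prod_union]
      · push_cast; rfl
      · rw [Finset.disjoint_left]
        intro x h4 h5
        exact (Finset.mem_sdiff.1 h5).2 (Finset.mem_of_mem_erase h4)
    have hTe0 : ((∏ p ∈ T.erase q, p : ℕ) : ZMod q) ≠ 0 :=
      prod_ne (hprime q hqP) (fun x hx => hprime x (hT (Finset.mem_of_mem_erase hx)))
        (Finset.notMem_erase q T)
    have hPT0 : ((∏ p ∈ Q \ T, p : ℕ) : ZMod q) ≠ 0 :=
      prod_ne (hprime q hqP) (fun x hx => hprime x (Finset.mem_sdiff.1 hx).1)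
        (fun h => (Finset.mem_sdiff.1 h).2 hq)
    have hc0 : (c : ZMod q) ≠ 0 := by
      rw [Ne, ZMod.intCast_zmod_eq_zero_iff_dvd]; exact hc q hqP
    have hd0 : (δ : ZMod q) ≠ 0 := by
      rw [Ne, ZMod.intCast_zmod_eq_zero_iff_dvd]; exact hδ q hqP
    have e5 : ((δ * ((∏ p ∈ T.erase q, p : ℕ) : ℤ) * (c * ((∏ p ∈ Q.erase q, p : ℕ) : ℤ)) : ℤ) :
        ZMod q) = ((δ : ZMod q) * (c : ZMod q) * ((∏ p ∈ Q \ T, p : ℕ) : ZMod q)) *
          (((∏ p ∈ T.erase q, p : ℕ) : ZMod q) * ((∏ p ∈ T.erase q, p : ℕ) : ZMod q)) := by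
      rw [e4]
      push_cast
      ring
    rw [e5, sq_mul_iff (mul_ne_zero (mul_ne_zero hd0 hc0) hPT0) (mul_ne_zero hTe0 hTe0)] at h2
    have h3 := h2.2 ⟨_, rfl⟩
    push_cast at h3 ⊢
    exact h3

lemma small_ndvd (hprime : ∀ p ∈ Q, p.Prime) (hodd : ∀ p ∈ Q, p ≠ 2) {n : ℤ}
    (hn : n.natAbs = 1 ∨ n.natAbs = 2 ∨ n.natAbs = 4) :
    ∀ q ∈ Q, ¬ (q : ℤ) ∣ n := by
  intro q hq h
  have h1 := hprime q hq
  have h3 : q ∣ n.natAbs := Int.natCast_dvd.1 h
  have h4 : q ∣ 2 ^ 2 := by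
    rcases hn with hn | hn | hn <;> rw [hn] at h3
    · exact h3.trans (one_dvd _)
    · exact h3.trans (by norm_num)
    · exact h3
  exact hodd q hq ((Nat.prime_dvd_prime_iff_eq h1 Nat.prime_two).1 (h1.dvd_of_dvd_pow h4))

lemma mem_Q (hprime : ∀ p ∈ Q, p.Prime) {z b : ℤ} {k : ℕ} (hb : b.natAbs = 2 ^ k * nD Q)
    (hz : Squarefree z)
    (h : ∀ (p : ℕ) [Fact p.Prime], PC 0 b p z) : ∀ p : ℕ, p.Prime → (p : ℤ) ∣ z → p ≠ 2 → p ∈ Q := by
  intro p hp hpz hp2
  haveI := Fact.mk hp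
  have h1 := dvd_b hz (h p) hpz
  have h2 : p ∣ 2 ^ k * nD Q := by
    rw [← hb]
    exact Int.natCast_dvd.1 h1
  rcases (Nat.Prime.dvd_mul hp).1 h2 with h3 | h3
  · exact absurd ((Nat.prime_dvd_prime_iff_eq hp Nat.prime_two).1 (hp.dvd_of_dvd_pow h3)) hp2
  · unfold nD at h3
    obtain ⟨q, hq, h3⟩ := (hp.prime.dvd_finsetProd_iff _).1 h3
    rwa [(Nat.prime_dvd_prime_iff_eq hp (hprime q hq)).1 h3]

lemma dvd_two {n : ℤ} (h : (2 : ℤ_[2]) ∣ (n : ℤ_[2])) : (2 : ℤ) ∣ n := by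
  have h1 : ((2 : ℕ) : ℤ_[2]) ∣ (n : ℤ_[2]) := by rwa [Nat.cast_ofNat]
  have h2 := (dvd_int (p := 2) (n := n)).1 h1
  rwa [Nat.cast_ofNat] at h2

/-- the condition at two, second group: the odd numbers -/
theorem two_odd {z D : ℤ} (hz : Squarefree z) (hz2 : ¬ (2 : ℤ) ∣ z) (hD : D % 4 = 3)
    (h : PC 0 (-4 * D) 2 z) : z % 4 = 1 := by
  obtain ⟨m, n, w, hmn, he⟩ := model hz h
  have hP' : Prime (2 : ℤ_[2]) := by simpa using PadicInt.prime_p (p := 2)
  have h20 : (2 : ℤ_[2]) ≠ 0 := hP'.ne_zero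
  push_cast at he hmn
  have hz' : ¬ (2 : ℤ_[2]) ∣ (z : ℤ_[2]) := by
    intro h1
    exact hz2 (dvd_two h1)
  have odd : ∀ t : ℤ, ¬ (2 : ℤ) ∣ t → (t : ZMod (2 ^ 2)) = 1 + 2 * ((t / 2 : ℤ) : ZMod (2 ^ 2)) := by
    intro t ht
    have : t = 1 + 2 * (t / 2) := by omega
    conv_lhs => rw [this]
    push_cast
    ring
  have fin : (z : ZMod (2 ^ 2)) = 1 → z % 4 = 1 := by
    intro h1
    have h2 : (z : ZMod (2 ^ 2)) = ((1 : ℤ) : ZMod (2 ^ 2)) := by rw [h1]; norm_num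
    rw [ZMod.intCast_eq_intCast_iff] at h2
    have : z % (2 ^ 2 : ℕ) = 1 % (2 ^ 2 : ℕ) := h2
    norm_num at this
    exact this
  have f4 : ∀ x : ZMod (2 ^ 2), (1 + 2 * x) ^ 4 = 1 := by decide
  have key : ∀ z' w : ZMod (2 ^ 2), (1 + 2 * z') * w ^ 2 = 1 → 1 + 2 * z' = 1 := by decide
  set φ : ℤ_[2] →+* ZMod (2 ^ 2) := PadicInt.toZModPow 2 with hφ
  apply fin
  by_cases hm : (2 : ℤ_[2]) ∣ m
  · obtain ⟨m', rfl⟩ := hm
    have hn : ¬ (2 : ℤ_[2]) ∣ n := fun h1 => hmn ⟨dvd_mul_right _ _, h1⟩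
    have d1 : (2 : ℤ_[2]) ∣ w := by
      have h1 : (2 : ℤ_[2]) ∣ z * w ^ 2 := ⟨8 * z ^ 2 * m' ^ 4 - 2 * D * n ^ 4, by
        linear_combination he⟩
      exact hP'.dvd_of_dvd_pow ((hP'.dvd_or_dvd h1).resolve_left hz')
    obtain ⟨w', rfl⟩ := d1
    have he2 : (z : ℤ_[2]) * w' ^ 2 = 4 * z ^ 2 * m' ^ 4 - D * n ^ 4 := by
      apply mul_left_cancel₀ (mul_ne_zero h20 h20)
      linear_combination he
    have h1 := congrArg φ he2
    simp only [map_mul, map_pow, map_sub, map_intCast, map_ofNat] at h1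
    obtain ⟨n', hn'⟩ := odd_form (by simpa using hn)
    have h2 : φ n ^ 4 = 1 := by
      rw [hn', map_add, map_mul, map_one, map_ofNat]
      exact f4 _
    have h4 : (4 : ZMod (2 ^ 2)) = 0 := by decide
    have hDz : ((D : ℤ) : ZMod (2 ^ 2)) = -1 := by
      have : ((D : ℤ) : ZMod (2 ^ 2)) = ((-1 : ℤ) : ZMod (2 ^ 2)) := by
        rw [ZMod.intCast_eq_intCast_iff]
        show D % (2 ^ 2 : ℕ) = (-1) % (2 ^ 2 : ℕ)
        norm_num
        omega
      rw [this]
      norm_num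
    rw [h2, h4, hDz, odd z hz2] at h1
    rw [odd z hz2]
    refine key _ (φ w') ?_
    rw [h1]
    ring
  · have h1 := congrArg φ he
    simp only [map_mul, map_pow, map_add, map_intCast, map_ofNat, map_neg] at h1
    obtain ⟨m', hm'⟩ := odd_form (by simpa using hm)
    have h2 : φ m ^ 4 = 1 := by
      rw [hm', map_add, map_mul, map_one, map_ofNat]
      exact f4 _
    have h4 : (4 : ZMod (2 ^ 2)) = 0 := by decide
    have key2 : ∀ z' w : ZMod (2 ^ 2), (1 + 2 * z') * w ^ 2 = (1 + 2 * z') ^ 2 →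
        1 + 2 * z' = 1 := by decide
    rw [h2, h4, odd z hz2] at h1
    rw [odd z hz2]
    refine key2 _ (φ w) ?_
    rw [h1]
    ring

/-- the condition at two, second group: the even numbers -/
theorem two_even {u D : ℤ} (hz : Squarefree (2 * u)) (hu2 : ¬ (2 : ℤ) ∣ u) (hD : D % 16 = 11)
    (h : PC 0 (-4 * D) 2 (2 * u)) : False := by
  obtain ⟨m, n, w, hmn, he⟩ := model hz h
  have hP' : Prime (2 : ℤ_[2]) := by simpa using PadicInt.prime_p (p := 2)
  have h20 : (2 : ℤ_[2]) ≠ 0 := hP'.ne_zero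
  push_cast at he hmn
  have hu' : ¬ (2 : ℤ_[2]) ∣ (u : ℤ_[2]) := by
    intro h1
    exact hu2 (dvd_two h1)
  have d1 : (2 : ℤ_[2]) ∣ w := by
    have h1 : (2 : ℤ_[2]) ∣ u * w ^ 2 := ⟨u ^ 2 * m ^ 4 - D * n ^ 4, by
      apply mul_left_cancel₀ h20
      linear_combination he⟩
    exact hP'.dvd_of_dvd_pow ((hP'.dvd_or_dvd h1).resolve_left hu')
  obtain ⟨w', rfl⟩ := d1
  have he2 : 2 * (u : ℤ_[2]) * w' ^ 2 = u ^ 2 * m ^ 4 - D * n ^ 4 := by
    apply mul_left_cancel₀ (mul_ne_zero h20 h20)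
    linear_combination he
  set φ : ℤ_[2] →+* ZMod (2 ^ 4) := PadicInt.toZModPow 4 with hφ
  have h1 := congrArg φ he2
  simp only [map_mul, map_pow, map_sub, map_intCast, map_ofNat] at h1
  have hDz : ((D : ℤ) : ZMod (2 ^ 4)) = 11 := by
    have : ((D : ℤ) : ZMod (2 ^ 4)) = ((11 : ℤ) : ZMod (2 ^ 4)) := by
      rw [ZMod.intCast_eq_intCast_iff]
      show D % (2 ^ 4 : ℕ) = 11 % (2 ^ 4 : ℕ)
      norm_num
      omega
    rw [this]
    norm_num
  rw [hDz] at h1
  have huv : φ m ^ 4 = 1 ∨ φ n ^ 4 = 1 := by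
    by_cases h2 : ((2 : ℕ) : ℤ_[2]) ∣ m
    · right
      obtain ⟨n', hn'⟩ := odd_form (m := n) fun h3 => hmn ⟨by simpa using h2, by simpa using h3⟩
      rw [hn', map_add, map_mul, map_one, map_ofNat]
      exact four_odd _
    · left
      obtain ⟨m', hm'⟩ := odd_form h2
      rw [hm', map_add, map_mul, map_one, map_ofNat]
      exact four_odd _
  have k0 : ∀ z' w : ZMod (2 ^ 4), ∀ u v : Bool, (u = true ∨ v = true) →
      2 * (1 + 2 * z') * w ^ 2 = (1 + 2 * z') ^ 2 * (if u then 1 else 0) -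
        11 * (if v then 1 else 0) → False := by decide
  have ez : (u : ZMod (2 ^ 4)) = 1 + 2 * ((u / 2 : ℤ) : ZMod (2 ^ 4)) := by
    have : u = 1 + 2 * (u / 2) := by omega
    conv_lhs => rw [this]
    push_cast
    ring
  rw [ez] at h1
  have h01 : (0 : ZMod (2 ^ 4)) ≠ 1 := by decide
  rcases four_cases (φ m) with h5 | h5 <;> rcases four_cases (φ n) with h6 | h6 <;>
    rw [h5, h6] at h1 huv
  · exact absurd huv (by simp [h01])
  · exact k0 _ _ false true (by simp) (by simpa using h1)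
  · exact k0 _ _ true false (by simp) (by simpa using h1)
  · exact k0 _ _ true true (by simp) (by simpa using h1)

section family

variable {P : Finset ℕ} {q : ℕ}

lemma q_notMem (hP : Cls P) (hq3 : q % 4 = 3) : q ∉ P := by
  intro h
  have := (hP q h).2
  omega

lemma nD_insert (hP : Cls P) (hq3 : q % 4 = 3) : nD (insert q P) = nD P * q := by
  classical
  unfold nD
  rw [Finset.prod_insert (q_notMem hP hq3), mul_comm]

lemma primes (hP : Cls P) (hq : q.Prime) : ∀ p ∈ insert q P, p.Prime := by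
  intro p hp
  rcases Finset.mem_insert.1 hp with rfl | hp
  · exact hq
  · exact (hP p hp).1

lemma odds (hP : Cls P) (hq3 : q % 4 = 3) : ∀ p ∈ insert q P, p ≠ 2 := by
  intro p hp h2
  rcases Finset.mem_insert.1 hp with h | hp
  · omega
  · have := (hP p hp).2
    omega

/-- the first Selmer group -/
theorem sel1 (hP : Cls P) (hq : q.Prime) (hq3 : q % 4 = 3) (hD : nD (insert q P) % 16 = 11)
    (hK : KS (insert q P)) {z : ℤ} (hz : Squarefree z) (h0 : 0 < z)
    (h : ∀ (p : ℕ) [Fact p.Prime], PC 0 (nD (insert q P) : ℤ) p z) :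
    z = 1 ∨ z = (nD (insert q P) : ℤ) := by
  have hpr := primes hP hq
  have hod := odds hP hq3
  haveI : Fact (Nat.Prime 2) := ⟨Nat.prime_two⟩
  have hmem := mem_Q hpr (b := (nD (insert q P) : ℤ)) (k := 0) (by simp) hz h
  obtain ⟨T, hT, hzT⟩ := T_of hz (P := insert q P) (fun p hp hpz => by
    refine hmem p hp hpz ?_
    rintro rfl
    have h1 := dvd_b hz (h 2) hpz
    push_cast at h1
    omega)
  have hTpos : 0 < ((∏ p ∈ T, p : ℕ) : ℤ) := by
    have : 0 < ∏ p ∈ T, p := Finset.prod_pos fun p hp => (hpr p (hT hp)).pos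
    exact_mod_cast this
  have hzT' : z = 1 * ((∏ p ∈ T, p : ℕ) : ℤ) := by
    rw [one_mul]
    rcases hzT with h5 | h5
    · exact h5
    · omega
  subst hzT'
  obtain ⟨h1, h2⟩ := T_cond hpr hT (δ := 1) (c := 1) (small_ndvd hpr hod (by norm_num))
    (small_ndvd hpr hod (by norm_num)) hz (fun p _ => by
      have := h p
      rwa [one_mul (nD (insert q P) : ℤ)])
  rcases hK T hT (fun p hp => by
    have := h1 p hp
    rw [one_mul, Int.cast_natCast] at this
    exact this) (fun p hp => by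
    have := h2 p hp
    rw [one_mul, one_mul, Int.cast_natCast] at this
    exact this) with e | e
  · left
    rw [e]
    simp
  · right
    rw [e, one_mul]
    rfl

/-- the second Selmer group -/
theorem sel2 (hP : Cls P) (hq : q.Prime) (hq3 : q % 4 = 3) (hD : nD (insert q P) % 16 = 11)
    (hK : KS (insert q P)) {z : ℤ} (hz : Squarefree z)
    (h : ∀ (p : ℕ) [Fact p.Prime], PC 0 (-4 * (nD (insert q P) : ℤ)) p z) :
    z = 1 ∨ z = -(nD (insert q P) : ℤ) := by
  classical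
  have hpr := primes hP hq
  have hod := odds hP hq3
  haveI : Fact (Nat.Prime 2) := ⟨Nat.prime_two⟩
  have hmem := mem_Q hpr (b := -4 * (nD (insert q P) : ℤ)) (k := 2)
    (by rw [Int.natAbs_mul]; norm_num) hz h
  by_cases h2z : (2 : ℤ) ∣ z
  · exfalso
    obtain ⟨u, rfl⟩ := h2z
    have hu2 : ¬ (2 : ℤ) ∣ u := by
      rintro ⟨c, rfl⟩
      have := hz 2 ⟨c, by ring⟩
      exact absurd (Int.isUnit_iff.1 this) (by norm_num)
    exact two_even hz hu2 (D := (nD (insert q P) : ℤ)) (by omega) (h 2)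
  · obtain ⟨T, hT, hzT⟩ := T_of hz (P := insert q P) (fun p hp hpz => by
      refine hmem p hp hpz ?_
      rintro rfl
      exact h2z hpz)
    have hz4 := two_odd hz h2z (D := (nD (insert q P) : ℤ)) (by omega) (h 2)
    by_cases hqT : q ∈ T
    · -- the sign is `-1`
      have h4 : (∏ p ∈ T, p) % 4 = 3 := by
        rw [← Finset.mul_prod_erase T (fun p => p) hqT, Nat.mul_mod, hq3,
          nD_mod4 hP (T.erase q) (fun x hx => by
            have h5 := hT (Finset.mem_of_mem_erase hx)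
            exact (Finset.mem_insert.1 h5).resolve_left (Finset.ne_of_mem_erase hx))]
      have hzT' : z = -1 * ((∏ p ∈ T, p : ℕ) : ℤ) := by
        rcases hzT with h5 | h5
        · omega
        · rw [h5]; ring
      subst hzT'
      obtain ⟨h1, h2⟩ := T_cond hpr hT (δ := -1) (c := -4) (small_ndvd hpr hod (by norm_num))
        (small_ndvd hpr hod (by norm_num)) hz h
      rcases hK T hT (fun p hp => by
        obtain ⟨hpQ, hpT⟩ := Finset.mem_sdiff.1 hp
        have hpP : p ∈ P := (Finset.mem_insert.1 hpQ).resolve_left (by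
          rintro rfl
          exact hpT hqT)
        haveI := Fact.mk (hpr p hpQ)
        obtain ⟨i, hi⟩ := zmod_neg_one (hP p hpP).1 (hP p hpP).2
        obtain ⟨r, hr⟩ := h1 p hp
        refine ⟨i * r, ?_⟩
        push_cast at hr ⊢
        linear_combination (r * r) * hi - hr) (fun p hp => by
        have hpQ := hT hp
        haveI := Fact.mk (hpr p hpQ)
        have h3 := h2 p hp
        have h20 : (2 : ZMod p) ≠ 0 := by
          have := small_ndvd hpr hod (n := 2) (by norm_num) p hpQ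
          rw [← ZMod.intCast_zmod_eq_zero_iff_dvd] at this
          exact_mod_cast this
        have hPT0 : ((∏ l ∈ insert q P \ T, l : ℕ) : ZMod p) ≠ 0 :=
          prod_ne (hpr p hpQ) (fun x hx => hpr x (Finset.mem_sdiff.1 hx).1)
            (fun h => (Finset.mem_sdiff.1 h).2 hp)
        have e : ((-1 * -4 * ((∏ l ∈ insert q P \ T, l : ℕ) : ℤ) : ℤ) : ZMod p) =
            (2 * 2 : ZMod p) * ((∏ l ∈ insert q P \ T, l : ℕ) : ZMod p) := by push_cast; ring
        rw [e, sq_mul_iff (mul_ne_zero h20 h20) hPT0] at h3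
        exact h3.1 ⟨2, rfl⟩) with e | e
      · rw [e] at hqT
        exact absurd hqT (Finset.notMem_empty q)
      · right
        rw [e]
        unfold nD
        ring
    · have hTP : T ⊆ P := by
        intro x hx
        refine (Finset.mem_insert.1 (hT hx)).resolve_left ?_
        rintro rfl
        exact hqT hx
      have h4 := nD_mod4 hP T hTP
      have hzT' : z = 1 * ((∏ p ∈ T, p : ℕ) : ℤ) := by
        rcases hzT with h5 | h5
        · rw [h5]; ring
        · omega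
      subst hzT'
      obtain ⟨h1, h2⟩ := T_cond hpr hT (δ := 1) (c := -4) (small_ndvd hpr hod (by norm_num))
        (small_ndvd hpr hod (by norm_num)) hz h
      rcases hK T hT (fun p hp => by
        have := h1 p hp
        rw [one_mul, Int.cast_natCast] at this
        exact this) (fun p hp => by
        have hpQ := hT hp
        have hpP := hTP hp
        haveI := Fact.mk (hpr p hpQ)
        have h3 := h2 p hp
        have h20 : (2 : ZMod p) ≠ 0 := by
          have := small_ndvd hpr hod (n := 2) (by norm_num) p hpQ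
          rw [← ZMod.intCast_zmod_eq_zero_iff_dvd] at this
          exact_mod_cast this
        have hPT0 : ((∏ l ∈ insert q P \ T, l : ℕ) : ZMod p) ≠ 0 :=
          prod_ne (hpr p hpQ) (fun x hx => hpr x (Finset.mem_sdiff.1 hx).1)
            (fun h => (Finset.mem_sdiff.1 h).2 hp)
        obtain ⟨i, hi⟩ := zmod_neg_one (hP p hpP).1 (hP p hpP).2
        have hi0 : i ≠ 0 := by
          rintro rfl
          rw [mul_zero] at hi
          exact one_ne_zero (neg_eq_zero.1 hi)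
        have e : ((1 * -4 * ((∏ l ∈ insert q P \ T, l : ℕ) : ℤ) : ℤ) : ZMod p) =
            ((2 * i) * (2 * i) : ZMod p) * ((∏ l ∈ insert q P \ T, l : ℕ) : ZMod p) := by
          push_cast
          linear_combination (4 * ∏ l ∈ insert q P \ T, (l : ZMod p)) * hi
        rw [e, sq_mul_iff (mul_ne_zero (mul_ne_zero h20 hi0) (mul_ne_zero h20 hi0)) hPT0] at h3
        exact h3.1 ⟨_, rfl⟩) with e | e
      · left
        rw [e]
        simp
      · exfalso
        apply hqT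
        rw [e]
        exact Finset.mem_insert_self q P

open Pool.Agent.W262.SH (QB Pt act IsCoc IsCob LocTriv shaCoc cob Sha) in
open Pool.Agent.TH841.SH in
open Pool.Agent.Y668 hiding PC in
open WeierstrassCurve in
open scoped Classical in
/-- the algebraic side -/
theorem alg (hP : Cls P) (hq : q.Prime) (hq3 : q % 4 = 3) (hD : nD (insert q P) % 16 = 11)
    (hK : KS (insert q P)) :
    (∀ x : Sha (Wt ((0 : ℤ) : ℚ) (((nD (insert q P) : ℕ) : ℤ) : ℚ)), x + x = 0 → x = 0) ∧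
    Finite (Wt ((0 : ℤ) : ℚ) (((nD (insert q P) : ℕ) : ℤ) : ℚ)).toAffine.Point := by
  obtain ⟨D, hDd⟩ : ∃ D : ℕ, D = nD (insert q P) := ⟨_, rfl⟩
  have hs1 := fun (z : ℤ) (hz : Squarefree z) (h0 : 0 < z)
    (h : ∀ (p : ℕ) [Fact p.Prime], PC 0 (nD (insert q P) : ℤ) p z) => sel1 hP hq hq3 hD hK hz h0 h
  have hs2 := fun (z : ℤ) (hz : Squarefree z)
    (h : ∀ (p : ℕ) [Fact p.Prime], PC 0 (-4 * (nD (insert q P) : ℤ)) p z) =>
    sel2 hP hq hq3 hD hK hz h
  rw [← hDd] at hD hs1 hs2 ⊢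
  have hb : (D : ℤ) ≠ 0 := by omega
  have e4 : (0 : ℤ) ^ 2 - 4 * (D : ℤ) = -4 * (D : ℤ) := by ring
  obtain ⟨hfin, hcard⟩ := Pool.Agent.Y700.card_sel (a := 0) (b := (D : ℤ)) hb (by
      rw [e4]
      omega) (S1 := {1, (D : ℤ)}) (S2 := {1, -(D : ℤ)}) (Set.toFinite _)
      (Set.toFinite _)
    (fun z hz hz0 hpc => by
      have := hs1 z hz hz0 hpc
      simpa using this) (fun z hz hpc => by
      have := hs2 z hz (fun p _ => by
        have h5 := hpc p
        rw [e4, mul_zero] at h5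
        exact h5)
      simpa using this)
  have hc4 : Nat.card (selCoc (Wt ((0 : ℤ) : ℚ) ((D : ℤ) : ℚ))) ≤ 4 := by
    refine hcard.trans ?_
    rw [Set.ncard_pair (by omega), Set.ncard_pair (by omega)]
  have hbQ : ((D : ℤ) : ℚ) ≠ 0 := by exact_mod_cast hb
  have habQ : ((0 : ℤ) : ℚ) ^ 2 - 4 * ((D : ℤ) : ℚ) < 0 := by
    have : (0 : ℤ) ^ 2 - 4 * (D : ℤ) < 0 := by rw [e4]; omega
    exact_mod_cast this
  have hsq : ¬ IsSquare (((0 : ℤ) : ℚ) ^ 2 - 4 * ((D : ℤ) : ℚ)) := by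
    rintro ⟨r, hr⟩
    rw [hr] at habQ
    exact absurd habQ (not_lt.2 (mul_self_nonneg r))
  have hbs : ¬ IsSquare ((D : ℤ) : ℚ) := by
    rw [Rat.isSquare_intCast_iff]
    rintro ⟨r, hr⟩
    have h1 : (D : ℤ) % 4 = 3 := by omega
    rw [hr] at h1
    rcases Int.emod_two_eq_zero_or_one r with h2 | h2
    · obtain ⟨s, rfl⟩ : (2 : ℤ) ∣ r := Int.dvd_of_emod_eq_zero h2
      have : 2 * s * (2 * s) = 4 * (s * s) := by ring
      omega
    · obtain ⟨s, rfl⟩ : ∃ s, r = 2 * s + 1 := ⟨r / 2, by omega⟩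
      have : (2 * s + 1) * (2 * s + 1) = 4 * (s * s + s) + 1 := by ring
      omega
  obtain ⟨c1, c2, -⟩ := Pool.Agent.Y700.count hbQ habQ.ne hsq hbs hfin hc4
  exact ⟨c1, c2⟩

end family

open scoped Classical in
theorem sha_conv (W : WeierstrassCurve ℚ)
    (h1 : ∀ x : Pool.Agent.W262.SH.Sha W, x + x = 0 → x = 0)
    (x : Pool.Agent.TH841.SH.D.Sha W) (hx : x + x = 0) : x = 0 := by
  obtain ⟨e⟩ : Nonempty (Pool.Agent.TH841.SH.D.Sha W ≃+ Pool.Agent.W262.SH.Sha W) :=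
    ⟨Pool.Agent.TH841.SH.D.eSha W⟩
  have h3 : e x = 0 := h1 (e x) (by rw [← e.map_add, hx, e.map_zero])
  have h4 : e x = e 0 := by rw [h3, e.map_zero]
  exact e.injective h4

end Pool.Agent.E8helper50.F1
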