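import Pool.Agent.E8helper21.F1.Stm
import Pool.Agent.E8helper50.F1.Core

/-!
# Project F1, piece ALG1 (helper50)
-/

set_option autoImplicit false

namespace Pool.Agent.E8helper50.F1

open Pool.Agent.E8helper21.F1 (S_K1S S_ALG1)

/-- F1-ALG1 -/
theorem t_ALG1 (h : S_K1S) : S_ALG1 := by
  intro P q hC hK
  have hn := nD_insert hC.cls hC.q3
  have hKS : KS (insert q P) := (h P q hC.cls hC.pr hC.q3).1 hK
  obtain ⟨h1, h2⟩ := alg hC.cls hC.pr hC.q3 (by rw [hn]; exact hC.mod) hKS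
  rw [hn] at h1 h2
  exact ⟨sha_conv _ h1, h2⟩

end Pool.Agent.E8helper50.F1
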